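import Pool.Agent.H88.TF.Exr

/-! # [H88 TZ DEF] Far points: fibres over the terms of degree `≥ n - s`, contact `r ≤ s - 1` (or `r ≤ s` if `3 s ≥ 2 n + 1`) -/

namespace Pool.Agent.H88.TZ

open Finset Polynomial Pool.Agent.H72.ES Pool.Agent.H88.TF

/-- agreement of the terms of degree `≥ n - s` -/
def Tops (n s : ℕ) (F G : ℕ → ℕ → ℤ) : Prop := ∀ i j, i + j ≤ n → n - s ≤ i + j → F i j = G i j

section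

variable {n Q : ℕ} {f : ℤ[X]} {θ : ℝ}

/-- the branch without its linear part, truncated at `s` -/
noncomputable def zbs {O : Ord ℝ n Q f θ} {F : ℕ → ℕ → ℤ} (s : ℕ) (br : Branch O F) (x : ℝ) : ℝ :=
  ∑ k ∈ Icc 2 s, cb br k / x ^ (k - 1)

/-- an integer point near the truncated branch -/
def Nbs {O : Ord ℝ n Q f θ} {F : ℕ → ℕ → ℤ} (s : ℕ) (br : Branch O F) (P : ℤ × ℤ) : Prop :=
  |(P.2 : ℝ) - (θ * P.1 + cb br 1 + zbs s br P.1)| ≤ bb n Q ^ (4 * n + 4) / |(P.1 : ℝ)| ^ s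

/-- `r` is the first index `≥ 2` with nonzero coefficient, `r ≤ s - 1`, or `r ≤ s` and `2 n + 1 ≤ 3 s` -/
structure Rcs {O : Ord ℝ n Q f θ} {F : ℕ → ℕ → ℤ} (s : ℕ) (br : Branch O F) (r : ℕ) : Prop where
  r2 : 2 ≤ r
  rs : r ≤ s
  ok : r + 1 ≤ s ∨ 2 * n + 1 ≤ 3 * s
  ne : cb br r ≠ 0
  lo : ∀ k, 2 ≤ k → k < r → cb br k = 0

end

/-- every real branch has such an `r` -/
def Ncs (n s Q : ℕ) (f : ℤ[X]) (G : ℕ → ℕ → ℤ) : Prop :=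
  ∀ θ : ℝ, aeval θ f = 0 → ∀ O : Ord ℝ n Q f θ, ∀ br : Branch O G, ∃ r, Rcs s br r

/-- EXS: expansion of the points of all curves of a fibre -/
def ExsS : Prop := ∀ (n s Q : ℕ) (f : ℤ[X]) (θ : ℝ) (O : Ord ℝ n Q f θ) (F G : ℕ → ℕ → ℤ), 3 ≤ s → s + 1 ≤ n →
  Norml n Q f F → Norml n Q f G → Tops n s F G → ∀ (br : Branch O G) (x y : ℤ), bb n Q ^ 5 ≤ |(x : ℝ)| →
  |(y : ℝ) / x - θ| ≤ 1 / bb n Q → ev n F x y = 0 → Nbs s br (x, y)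

/-- NGS: two points near a branch with contact `r` -/
def NgsS : Prop := ∀ (n s Q : ℕ) (f : ℤ[X]) (θ : ℝ) (O : Ord ℝ n Q f θ) (G : ℕ → ℕ → ℤ), 3 ≤ s → s + 1 ≤ n → Norml n Q f G →
  Irreducible f → ∀ (br : Branch O G) (r : ℕ), Rcs s br r → ∀ X : ℝ, bb n Q ^ (60 * n ^ 2) ≤ X → ∀ P P' : ℤ × ℤ, P.1 ≠ P'.1 →
  X ≤ |(P.1 : ℝ)| → X ≤ |(P'.1 : ℝ)| → Nbs s br P → Nbs s br P' →
  X ^ (r - 1) ≤ bb n Q ^ (4 * n + 6) * |(P.1 : ℝ) - P'.1| ^ (n - 1)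

/-- NCS: no three collinear points in a window, on one side -/
def NcsS : Prop := ∀ (n s Q : ℕ) (f : ℤ[X]) (θ : ℝ) (O : Ord ℝ n Q f θ) (G : ℕ → ℕ → ℤ), 3 ≤ s → s + 1 ≤ n → Norml n Q f G →
  Irreducible f → ∀ (br : Branch O G) (r : ℕ), Rcs s br r → ∀ X : ℝ, bb n Q ^ (60 * n ^ 2) ≤ X → ∀ P : Fin 3 → ℤ × ℤ,
  Function.Injective P → ((∀ i, X ≤ ((P i).1 : ℝ)) ∨ ∀ i, X ≤ -((P i).1 : ℝ)) →
  (∀ i, |((P i).1 : ℝ)| ≤ X ^ (1 + 1 / (4 * (n : ℝ)))) → (∀ i, Nbs s br (P i)) → ¬ Col (P 0) (P 1) (P 2)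

/-- WNS: the number of far points on all curves of a fibre -/
def WnsS : Prop := ∀ (n s Q : ℕ) (f : ℤ[X]) (G : ℕ → ℕ → ℤ), 3 ≤ s → s + 1 ≤ n → Norml n Q f G → Irreducible f → Ncs n s Q f G →
  ∀ S : Finset (ℤ × ℤ), (∀ P ∈ S, ∃ F, Norml n Q f F ∧ Tops n s F G ∧ ev n F P.1 P.2 = 0) →
  (∀ P ∈ S, (Q : ℝ) ^ 2 * bb n Q ^ (60 * n ^ 2) ≤ ((max |P.1| |P.2| : ℤ) : ℝ)) → S.card ≤ 600 * n ^ 3

/-- DGS: `r ≤ m` exists if `G(X, θ X + b)` has degree at least `n - m` for all real `θ`, `b` -/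
def DgsS : Prop := ∀ (n m Q : ℕ) (f : ℤ[X]) (G : ℕ → ℕ → ℤ), 2 ≤ m → m + 1 ≤ n → Norml n Q f G →
  (∀ t b : ℝ, n - m ≤ (ev n (cst ℝ[X] G) X (C t * X + C b)).natDegree) →
  ∀ θ : ℝ, aeval θ f = 0 → ∀ O : Ord ℝ n Q f θ, ∀ br : Branch O G, ∃ r, 2 ≤ r ∧ r ≤ m ∧ cb br r ≠ 0 ∧
    ∀ k, 2 ≤ k → k < r → cb br k = 0

/-- NRS: bounded exceptions in a fibre over the terms of degree `≥ n - s` -/
def NrsS : Prop := ∀ (n s m H : ℕ), 3 ≤ s → s + 1 ≤ n → 2 ≤ m → (m + 1 ≤ s ∨ m ≤ s ∧ 2 * n + 1 ≤ 3 * s) → 2 ≤ H →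
  ∀ G : MvPolynomial (Fin 2) ℤ, G.totalDegree = n →
  Irreducible (MvPolynomial.map (Int.castRingHom ℚ) (MvPolynomial.homogeneousComponent n G)) →
  (∀ t b : ℝ, n - m ≤ (MvPolynomial.aeval ![X, C t * X + C b] G : ℝ[X]).natDegree) →
  ∀ T : Finset (MvPolynomial (Fin 2) ℤ × (ℤ × ℤ)), (∀ q ∈ T, (q.1 - G).totalDegree ≤ n - s - 1 ∧
    (∀ m, |q.1.coeff m| ≤ (H : ℤ)) ∧ MvPolynomial.eval ![q.2.1, q.2.2] q.1 = 0 ∧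
    (H : ℤ) ^ (600 * n ^ 5) < max |q.2.1| |q.2.2|) → T.card ≤ 600 * n ^ 3

end Pool.Agent.H88.TZ
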