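import Pool.Agent.H88.TZ.Def

/-! # [H88 TZ EXS] Expansion of the points of all curves of a fibre (as `H88/TF/Exr.lean`) -/

namespace Pool.Agent.H88.TZ

open Finset Polynomial Pool.Agent.H72.ES Pool.Agent.H88.TF

private theorem ev_smalls {n Q : ℕ} {f : ℤ[X]} {θ : ℝ} (O : Ord ℝ n Q f θ) {F G : ℕ → ℕ → ℤ}
    (hF : Norml n Q f F) (hG : Norml n Q f G) {s : ℕ} (hsn : s + 1 ≤ n) (hFG : Tops n s F G) (x y : ℤ) (hx : x ≠ 0)
    (hy : |(y : ℝ) / x - θ| ≤ 1 / bb n Q) (h0 : ev n F x y = 0) :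
    |((ev n G x y : ℤ) : ℝ)| ≤ bb n Q * |(x : ℝ)| ^ (n - s - 1) := by
  have hn := hF.hn
  have hslope := slope_of_near O hF x y hx hy
  have hQ1 := one_le_QR hF.hn hF.hQ
  have hQ16 := sixteen_leR hF.hn hF.hQ
  have hx1 : 1 ≤ |(x : ℝ)| := by
    have : 1 ≤ |x| := Int.one_le_abs hx
    exact_mod_cast this
  have h1 : ((ev n G x y : ℤ) : ℝ) = ∑ i ∈ range (n + 1), ∑ j ∈ range (n + 1 - i),
      ((G i j - F i j : ℤ) : ℝ) * (x : ℝ) ^ i * (y : ℝ) ^ j := by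
    have h2 : ev n G x y = ev n G x y - ev n F x y := by rw [h0, sub_zero]
    rw [h2]
    unfold ev
    rw [← sum_sub_distrib]
    push_cast
    refine sum_congr rfl fun i _ => ?_
    rw [← sum_sub_distrib]
    refine sum_congr rfl fun j _ => ?_
    ring
  rw [h1]
  have h2 : ∀ i ∈ range (n + 1), ∀ j ∈ range (n + 1 - i),
      |((G i j - F i j : ℤ) : ℝ) * (x : ℝ) ^ i * (y : ℝ) ^ j| ≤
        2 * Q * (Q : ℝ) ^ (3 * n) * |(x : ℝ)| ^ (n - s - 1) := by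
    intro i hi j hj
    simp only [mem_range] at hi hj
    by_cases h : n - s ≤ i + j
    · rw [hFG i j (by omega) h]
      simp
      positivity
    · rw [abs_mul, abs_mul, abs_pow, abs_pow]
      have e1 : |((G i j - F i j : ℤ) : ℝ)| ≤ 2 * Q := by
        have e2 : |G i j - F i j| ≤ 2 * (Q : ℤ) := by
          have := abs_sub (G i j) (F i j)
          have g1 := hG.bound i j (by omega)
          have g2 := hF.bound i j (by omega)
          linarith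
        exact_mod_cast e2
      calc |((G i j - F i j : ℤ) : ℝ)| * |(x : ℝ)| ^ i * |(y : ℝ)| ^ j
          ≤ 2 * Q * |(x : ℝ)| ^ i * ((Q : ℝ) ^ 3 * |(x : ℝ)|) ^ j := by gcongr
        _ = 2 * Q * (Q : ℝ) ^ (3 * j) * |(x : ℝ)| ^ (i + j) := by
          rw [mul_pow, ← pow_mul, pow_add]
          ring
        _ ≤ 2 * Q * (Q : ℝ) ^ (3 * n) * |(x : ℝ)| ^ (n - s - 1) := by
          have e3 : (Q : ℝ) ^ (3 * j) ≤ (Q : ℝ) ^ (3 * n) := pow_le_pow_right₀ hQ1 (by omega)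
          have e4 : |(x : ℝ)| ^ (i + j) ≤ |(x : ℝ)| ^ (n - s - 1) := pow_le_pow_right₀ hx1 (by omega)
          gcongr
  have h3 : |∑ i ∈ range (n + 1), ∑ j ∈ range (n + 1 - i),
      ((G i j - F i j : ℤ) : ℝ) * (x : ℝ) ^ i * (y : ℝ) ^ j| ≤
      ∑ i ∈ range (n + 1), ∑ j ∈ range (n + 1 - i),
        2 * Q * (Q : ℝ) ^ (3 * n) * |(x : ℝ)| ^ (n - s - 1) := by
    refine (abs_sum_le_sum_abs _ _).trans (sum_le_sum fun i hi => ?_)
    exact (abs_sum_le_sum_abs _ _).trans (sum_le_sum fun j hj => h2 i hi j hj)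
  refine h3.trans ?_
  have h4 : ∑ i ∈ range (n + 1), ∑ j ∈ range (n + 1 - i),
        2 * (Q : ℝ) * (Q : ℝ) ^ (3 * n) * |(x : ℝ)| ^ (n - s - 1) ≤
      ∑ i ∈ range (n + 1), ((n : ℝ) + 1) * (2 * Q * (Q : ℝ) ^ (3 * n) * |(x : ℝ)| ^ (n - s - 1)) := by
    refine sum_le_sum fun i hi => ?_
    rw [sum_const, nsmul_eq_mul, card_range]
    have : ((n + 1 - i : ℕ) : ℝ) ≤ (n : ℝ) + 1 := by
      have : n + 1 - i ≤ n + 1 := Nat.sub_le _ _
      exact_mod_cast this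
    gcongr
  refine h4.trans ?_
  rw [sum_const, nsmul_eq_mul, card_range]
  have hnQ := n_add_one_leR hF.hn hF.hQ
  push_cast
  calc ((n : ℝ) + 1) * (((n : ℝ) + 1) * (2 * Q * (Q : ℝ) ^ (3 * n) * |(x : ℝ)| ^ (n - s - 1)))
      ≤ Q * (Q * (Q * Q * (Q : ℝ) ^ (3 * n) * |(x : ℝ)| ^ (n - s - 1))) := by
        have : (2 : ℝ) ≤ Q := by linarith
        gcongr
    _ = (Q : ℝ) ^ (3 * n + 4) * |(x : ℝ)| ^ (n - s - 1) := by ring
    _ ≤ bb n Q * |(x : ℝ)| ^ (n - s - 1) := by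
        have : (Q : ℝ) ^ (3 * n + 4) ≤ bb n Q := Qpow_le_bb hF.hn hF.hQ (by nlinarith)
        gcongr

theorem exs : ExsS := by
  intro n s Q f θ O F G h3 hsn hF hG hFG br x y hx hy h0
  have hb := bb_pos hF.hn hF.hQ
  have hb1 := one_le_bb hF.hn hF.hQ
  have hx0 : 0 < |(x : ℝ)| := lt_of_lt_of_le (by positivity) hx
  have hx1 : 1 ≤ |(x : ℝ)| := le_trans (one_le_pow₀ hb1) hx
  have hxne : (x : ℝ) ≠ 0 := abs_pos.1 hx0
  have hxz : x ≠ 0 := by exact_mod_cast hxne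
  have hk : O.φ O.κ ≠ 0 := abs_pos.1 (exp_kappa (O := O) hF).1
  have hEq := ev_smalls O hF hG hsn hFG x y hxz hy h0
  have h := exp_main hG br x y hx hy (s + 1) _ hEq
  have hw0 : PowerSeries.coeff 0 br.w = 0 := by
    rw [PowerSeries.coeff_zero_eq_constantCoeff_apply, br.h0]
  have hterm : ∀ i, 1 ≤ i → (x : ℝ) * (O.φ O.κ * (O.φ (PowerSeries.coeff i br.w) *
      (1 / O.φ O.κ ^ 2 * (1 / x)) ^ i)) = cb br i / (x : ℝ) ^ (i - 1) := by
    intro i hi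
    obtain ⟨k, rfl⟩ : ∃ k, i = k + 1 := ⟨i - 1, by omega⟩
    unfold cb
    have e : 2 * (k + 1) - 1 = 2 * k + 1 := by omega
    have e7 : (1 / O.φ O.κ ^ 2 * (1 / (x : ℝ))) ^ (k + 1) =
        1 / (O.φ O.κ ^ (2 * k + 1) * O.φ O.κ * ((x : ℝ) ^ k * x)) := by
      rw [mul_pow, one_div_pow, one_div_pow, ← pow_mul, one_div_mul_one_div]
      congr 1
    rw [e, Nat.add_sub_cancel, e7]
    field_simp
  have hsum : (x : ℝ) * (O.φ O.κ * ∑ i ∈ range (s + 1),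
      O.φ (PowerSeries.coeff i br.w) * (1 / O.φ O.κ ^ 2 * (1 / x)) ^ i) = cb br 1 + zbs s br x := by
    obtain ⟨m, rfl⟩ : ∃ m, s = m + 1 := ⟨s - 1, by omega⟩
    rw [sum_range_succ', sum_range_succ', hw0, map_zero, zero_mul, add_zero, mul_add, mul_add,
      hterm 1 le_rfl, mul_sum, mul_sum]
    have e2 : Icc 2 (m + 1) = Ico 2 (m + 2) := by
      ext a
      simp only [mem_Icc, mem_Ico]
      omega
    rw [zbs, e2, sum_Ico_eq_sum_range]
    have e3 : m + 2 - 2 = m := by omega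
    rw [e3, add_comm]
    congr 1
    · simp
    · refine sum_congr rfl fun i _ => ?_
      rw [hterm (i + 1 + 1) (by omega)]
      have e4 : i + 1 + 1 = 2 + i := by omega
      rw [e4]
  show |(y : ℝ) - (θ * (x : ℤ) + cb br 1 + zbs s br (x : ℤ))| ≤ bb n Q ^ (4 * n + 4) / |(x : ℝ)| ^ s
  have e1 : (y : ℝ) - (θ * x + cb br 1 + zbs s br x) = x * ((y : ℝ) / x -
      (θ + O.φ O.κ * ∑ i ∈ range (s + 1),
        O.φ (PowerSeries.coeff i br.w) * (1 / O.φ O.κ ^ 2 * (1 / x)) ^ i)) := by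
    rw [mul_sub, mul_add, hsum, mul_div_cancel₀ _ hxne]
    ring
  rw [e1, abs_mul]
  refine (mul_le_mul_of_nonneg_left h hx0.le).trans ?_
  have h2 : (4 : ℝ) ≤ bb n Q := by
    refine le_trans ?_ (Q_le_bb hF.hn hF.hQ)
    linarith [sixteen_leR hF.hn hF.hQ]
  obtain ⟨m, rfl⟩ : ∃ m, n = s + 1 + m := ⟨n - (s + 1), by omega⟩
  have e5 : s + 1 + m - s - 1 = m := by omega
  rw [e5]
  set b := bb (s + 1 + m) Q with hbdef
  calc |(x : ℝ)| * (2 * b * (b * |(x : ℝ)| ^ m / |(x : ℝ)| ^ (s + 1 + m) +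
      b * (1 / |(x : ℝ)| * b ^ 4) ^ (s + 1)))
      = (2 * b ^ 2 + 2 * b ^ (4 * s + 6)) / |(x : ℝ)| ^ s := by
        have e7 : (1 / |(x : ℝ)| * b ^ 4) ^ (s + 1) = b ^ (4 * s + 4) / (|(x : ℝ)| ^ s * |(x : ℝ)|) := by
          rw [mul_pow, one_div_pow, ← pow_mul, one_div_mul_eq_div, ← pow_succ]
          congr 2
        have e8 : |(x : ℝ)| ^ (s + 1 + m) = |(x : ℝ)| ^ s * |(x : ℝ)| * |(x : ℝ)| ^ m := by
          rw [pow_add, pow_succ]
        rw [e7, e8]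
        field_simp
        ring
    _ ≤ b ^ (4 * (s + 1 + m) + 4) / |(x : ℝ)| ^ s := by
        refine div_le_div_of_nonneg_right ?_ (by positivity)
        have h3 : b ^ 2 ≤ b ^ (4 * s + 6) := pow_le_pow_right₀ hb1 (by omega)
        calc 2 * b ^ 2 + 2 * b ^ (4 * s + 6) ≤ 4 * b ^ (4 * s + 6) := by linarith
          _ ≤ b * b ^ (4 * s + 6) := by gcongr
          _ = b ^ (4 * s + 7) := by ring
          _ ≤ b ^ (4 * (s + 1 + m) + 4) := pow_le_pow_right₀ hb1 (by omega)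

end Pool.Agent.H88.TZ
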