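import Pool.Agent.H88.TZ.Def
import Pool.Agent.H88.TF.Ncr

/-! # [H88 TZ NCS] No three collinear points in a window (one side of one branch, contact `r ≤ s - 1`, or `r ≤ s`, `2 n + 1 ≤ 3 s`)

As `H88/TF/Ncr.lean` (`sdiff_lower`, `col_bound` with `n = s + 2`), the exponents: `D² Y^(4ns) ≤ b^(4n+5+2rn) Y^((4n+1)(r+1))` and
`Y^(4n(r-1)) ≤ b^(4n+6) D^(n-1)`, `Y = X^(1/(4n)) ≥ b^(15n)`. -/

namespace Pool.Agent.H88.TZ

open Finset Polynomial Pool.Agent.H72.ES Pool.Agent.H88.TF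

/-- sorting three collinear points -/
private theorem sort3 (P : Fin 3 → ℤ × ℤ) (hne : ∀ i j, i ≠ j → (P i).1 ≠ (P j).1) (hc : Col (P 0) (P 1) (P 2)) :
    ∃ i j k, (P i).1 < (P j).1 ∧ (P j).1 < (P k).1 ∧
      ((P j).1 - (P i).1) * ((P k).2 - (P j).2) = ((P k).1 - (P j).1) * ((P j).2 - (P i).2) := by
  have h01 := hne 0 1 (by decide)
  have h02 := hne 0 2 (by decide)
  have h12 := hne 1 2 (by decide)
  unfold Col at hc
  rcases lt_or_gt_of_ne h01 with a | a <;> rcases lt_or_gt_of_ne h02 with b | b <;>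
    rcases lt_or_gt_of_ne h12 with c | c
  · exact ⟨0, 1, 2, a, c, by linear_combination hc⟩
  · exact ⟨0, 2, 1, b, c, by linear_combination -hc⟩
  · omega
  · exact ⟨2, 0, 1, b, a, by linear_combination hc⟩
  · exact ⟨1, 0, 2, a, b, by linear_combination -hc⟩
  · omega
  · exact ⟨1, 2, 0, c, b, by linear_combination hc⟩
  · exact ⟨2, 1, 0, c, a, by linear_combination -hc⟩

/-- the case `r ≥ s - 1`: the exponents -/
private theorem core {n s r K M : ℕ} {b Y D : ℝ} (hb : 1000 ≤ b)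
    (hY : b ^ (15 * n) ≤ Y) (hD : 1 ≤ D)
    (h1 : D ^ 2 * Y ^ (4 * n * s) ≤ b ^ (4 * n + 5 + 2 * r * n) * Y ^ ((4 * n + 1) * (r + 1)))
    (hg : (Y ^ (4 * n)) ^ (r - 1) ≤ b ^ (4 * n + 6) * D ^ (n - 1))
    (hK : (4 * n + 1) * (r + 1) = K + 4 * n * s) (hM : 8 * n * (r - 1) = M + K * (n - 1))
    (hlt : 8 * n + 12 + (4 * n + 5 + 2 * r * n) * (n - 1) < 15 * n * M) : False := by
  have hb1 : 1 ≤ b := by linarith
  have hb0 : 0 < b := by linarith
  have hY1 : 1 ≤ Y := (one_le_pow₀ hb1).trans hY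
  have hY0 : 0 < Y := by linarith
  have hD0 : 0 < D := by linarith
  have s1 : D ^ 2 ≤ b ^ (4 * n + 5 + 2 * r * n) * Y ^ K := by
    have s2 : D ^ 2 * Y ^ (4 * n * s) ≤ (b ^ (4 * n + 5 + 2 * r * n) * Y ^ K) * Y ^ (4 * n * s) := by
      refine h1.trans (le_of_eq ?_)
      rw [hK, pow_add Y]
      ring
    exact le_of_mul_le_mul_right s2 (by positivity)
  have s3 : D ^ (2 * (n - 1)) ≤ b ^ ((4 * n + 5 + 2 * r * n) * (n - 1)) * Y ^ (K * (n - 1)) := by
    calc D ^ (2 * (n - 1)) = (D ^ 2) ^ (n - 1) := pow_mul _ _ _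
      _ ≤ (b ^ (4 * n + 5 + 2 * r * n) * Y ^ K) ^ (n - 1) := pow_le_pow_left₀ (by positivity) s1 _
      _ = _ := by rw [mul_pow, ← pow_mul, ← pow_mul]
  have s4 : Y ^ (8 * n * (r - 1)) ≤ b ^ (8 * n + 12) * D ^ (2 * (n - 1)) := by
    have s5 := mul_le_mul hg hg (by positivity) (by positivity)
    refine le_trans (le_of_eq ?_) (s5.trans (le_of_eq ?_))
    · rw [← pow_mul, ← pow_add]
      congr 1
      ring
    · rw [show 8 * n + 12 = (4 * n + 6) + (4 * n + 6) by ring, pow_add b (4 * n + 6), two_mul, pow_add D]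
      ring
  have s6 : Y ^ M ≤ b ^ (8 * n + 12 + (4 * n + 5 + 2 * r * n) * (n - 1)) := by
    have s7 : Y ^ M * Y ^ (K * (n - 1)) ≤
        b ^ (8 * n + 12 + (4 * n + 5 + 2 * r * n) * (n - 1)) * Y ^ (K * (n - 1)) := by
      rw [← pow_add, ← hM]
      calc Y ^ (8 * n * (r - 1)) ≤ b ^ (8 * n + 12) * D ^ (2 * (n - 1)) := s4
        _ ≤ b ^ (8 * n + 12) * (b ^ ((4 * n + 5 + 2 * r * n) * (n - 1)) * Y ^ (K * (n - 1))) :=
            mul_le_mul_of_nonneg_left s3 (by positivity)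
        _ = _ := by rw [pow_add b (8 * n + 12)]; ring
    exact le_of_mul_le_mul_right s7 (by positivity)
  have s8 : b ^ (15 * n * M) ≤ Y ^ M := by
    rw [pow_mul]
    exact pow_le_pow_left₀ (by positivity) hY _
  have s9 : b ^ (8 * n + 12 + (4 * n + 5 + 2 * r * n) * (n - 1)) < b ^ (15 * n * M) :=
    pow_lt_pow_right₀ (by linarith) hlt
  linarith

/-- (3), (4): the exponents -/
private theorem fin_num {n s r : ℕ} {b Y D C : ℝ} (h3 : 3 ≤ s) (hsn : s + 1 ≤ n) (hr2 : 2 ≤ r) (hrs : r ≤ s)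
    (hok : r + 1 ≤ s ∨ 2 * n + 1 ≤ 3 * s) (hb : 1000 ≤ b)
    (hY : b ^ (15 * n) ≤ Y) (hD : 1 ≤ D) (hC : 1 ≤ C * b ^ (2 * r * n))
    (hk : D ^ 2 * C * (Y ^ (4 * n)) ^ s ≤ 4 * b ^ (4 * n + 4) * (Y ^ (4 * n + 1)) ^ (r + 1))
    (hg : (Y ^ (4 * n)) ^ (r - 1) ≤ b ^ (4 * n + 6) * D ^ (n - 1)) : False := by
  have hb1 : 1 ≤ b := by linarith
  have hb0 : 0 < b := by linarith
  have hY1 : 1 ≤ Y := (one_le_pow₀ hb1).trans hY
  have hY0 : 0 < Y := by linarith
  have hD0 : 0 < D := by linarith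
  have h1 : D ^ 2 * Y ^ (4 * n * s) ≤ b ^ (4 * n + 5 + 2 * r * n) * Y ^ ((4 * n + 1) * (r + 1)) := by
    have s1 : D ^ 2 * Y ^ (4 * n * s) * 1 ≤ D ^ 2 * Y ^ (4 * n * s) * (C * b ^ (2 * r * n)) :=
      mul_le_mul_of_nonneg_left hC (by positivity)
    calc D ^ 2 * Y ^ (4 * n * s) ≤ D ^ 2 * Y ^ (4 * n * s) * (C * b ^ (2 * r * n)) := by linarith
      _ = (D ^ 2 * C * (Y ^ (4 * n)) ^ s) * b ^ (2 * r * n) := by rw [← pow_mul]; ring
      _ ≤ (4 * b ^ (4 * n + 4) * (Y ^ (4 * n + 1)) ^ (r + 1)) * b ^ (2 * r * n) :=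
          mul_le_mul_of_nonneg_right hk (by positivity)
      _ = 4 * (b ^ (4 * n + 4) * b ^ (2 * r * n) * Y ^ ((4 * n + 1) * (r + 1))) := by rw [← pow_mul]; ring
      _ ≤ b * (b ^ (4 * n + 4) * b ^ (2 * r * n) * Y ^ ((4 * n + 1) * (r + 1))) :=
          mul_le_mul_of_nonneg_right (by linarith) (by positivity)
      _ = _ := by
          rw [show 4 * n + 5 + 2 * r * n = 1 + (4 * n + 4) + 2 * r * n by ring, pow_add b (1 + (4 * n + 4)),
            pow_add b 1, pow_one]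
          ring
  rcases Nat.lt_or_ge (r + 1) s with hlt | hge
  · -- r ≤ s - 2
    obtain ⟨m, rfl⟩ : ∃ m, s = r + 2 + m := ⟨s - (r + 2), by omega⟩
    obtain ⟨k, rfl⟩ : ∃ k, n = r + 3 + m + k := ⟨n - (r + 3 + m), by omega⟩
    set n := r + 3 + m + k with hn
    have s1 : Y ^ ((4 * n + 1) * (r + 1)) * Y ^ (3 * n) ≤ D ^ 2 * Y ^ (4 * n * (r + 2 + m)) := by
      rw [← pow_add]
      have s2 : (4 * n + 1) * (r + 1) + 3 * n ≤ 4 * n * (r + 2 + m) := by
        have s3 : r + 1 ≤ n := by omega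
        nlinarith [Nat.zero_le (n * m)]
      calc Y ^ ((4 * n + 1) * (r + 1) + 3 * n) ≤ Y ^ (4 * n * (r + 2 + m)) := pow_le_pow_right₀ hY1 s2
        _ ≤ D ^ 2 * Y ^ (4 * n * (r + 2 + m)) := le_mul_of_one_le_left (by positivity) (one_le_pow₀ hD)
    have s3 : Y ^ (3 * n) ≤ b ^ (4 * n + 5 + 2 * r * n) := by
      have s4 : Y ^ (3 * n) * Y ^ ((4 * n + 1) * (r + 1)) ≤ b ^ (4 * n + 5 + 2 * r * n) * Y ^ ((4 * n + 1) * (r + 1)) := by
        rw [mul_comm (Y ^ (3 * n))]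
        exact s1.trans h1
      exact le_of_mul_le_mul_right s4 (by positivity)
    have s5 : b ^ (15 * n * (3 * n)) ≤ Y ^ (3 * n) := by
      rw [pow_mul]
      exact pow_le_pow_left₀ (by positivity) hY _
    have s6 : b ^ (4 * n + 5 + 2 * r * n) < b ^ (15 * n * (3 * n)) := by
      refine pow_lt_pow_right₀ (by linarith) ?_
      have s7 : r * n ≤ n * n := Nat.mul_le_mul_right _ (by omega)
      have s8 : 3 ≤ n := by omega
      nlinarith
    linarith
  · rcases Nat.lt_or_ge r s with hlt | hge2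
    · -- r = s - 1
      obtain ⟨u, rfl⟩ : ∃ u, r = u + 2 := ⟨r - 2, by omega⟩
      obtain rfl : s = u + 3 := by omega
      obtain ⟨p, rfl⟩ : ∃ p, n = p + 1 := ⟨n - 1, by omega⟩
      have hp : u + 3 ≤ p := by omega
      refine core (K := u + 3) (M := (p + 1) * (7 * u + 5) + u + 3) hb hY hD h1 hg ?_ ?_ ?_
      · ring
      · rw [show u + 2 - 1 = u + 1 by omega, Nat.add_sub_cancel]
        ring
      · rw [Nat.add_sub_cancel]
        nlinarith [Nat.zero_le (u * p), Nat.zero_le (u * p ^ 2), Nat.zero_le (p ^ 2), Nat.zero_le (u ^ 2)]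
    · -- r = s
      obtain rfl : r = s := by omega
      have hs3 : 2 * n + 1 ≤ 3 * r := by omega
      obtain ⟨u, rfl⟩ : ∃ u, r = u + 1 := ⟨r - 1, by omega⟩
      obtain ⟨p, rfl⟩ : ∃ p, n = p + 1 := ⟨n - 1, by omega⟩
      have hM1 : (4 * (p + 1) + (u + 1) + 1) * p ≤ 8 * (p + 1) * u := by nlinarith
      obtain ⟨M, hM⟩ : ∃ M, 8 * (p + 1) * u = M + (4 * (p + 1) + (u + 1) + 1) * p := ⟨_, (Nat.sub_add_cancel hM1).symm⟩
      refine core (K := 4 * (p + 1) + (u + 1) + 1) (M := M) hb hY hD h1 hg ?_ ?_ ?_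
      · ring
      · rw [Nat.add_sub_cancel, Nat.add_sub_cancel]
        exact hM
      · rw [Nat.add_sub_cancel]
        have hM3 : 2 * p * p ≤ 3 * M + 2 * p := by nlinarith
        have hup : u + 1 ≤ p := by omega
        have h5 : 5 * (p + 1) * (2 * p * p) ≤ 5 * (p + 1) * (3 * M + 2 * p) := Nat.mul_le_mul_left _ hM3
        have h6 : (u + 1) * ((p + 1) * p) ≤ p * ((p + 1) * p) := Nat.mul_le_mul_right _ hup
        obtain ⟨q, rfl⟩ : ∃ q, p = q + 3 := ⟨p - 3, by omega⟩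
        nlinarith [Nat.zero_le q, Nat.zero_le (q ^ 2), Nat.zero_le (q ^ 3)]

theorem ncs (h1 : CblS) (h2 : CbgS) (hng : NgsS) : NcsS := by
  intro n s Q f θ O G h3 hsn hG hf br r hr X hX P hinj hside hx2 hNb hcol
  have hn := hG.hn
  have hQ := hG.hQ
  have hb1 : 1 ≤ bb n Q := one_le_bb hn hQ
  have hb0 : 0 < bb n Q := bb_pos hn hQ
  have hb1000 : 1000 ≤ bb n Q := thousand_le_bb hn hQ
  have hX1 : 1 ≤ X := (one_le_pow₀ hb1).trans hX
  have hX0 : 0 < X := by linarith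
  have hnR : (0 : ℝ) < n := by exact_mod_cast (by omega : 0 < n)
  have hr2 := hr.r2
  have hrs := hr.rs
  have hxX : ∀ i, X ≤ |((P i).1 : ℝ)| := by
    intro i
    rcases hside with h | h
    · exact (h i).trans (le_abs_self _)
    · exact (h i).trans (neg_le_abs _)
  -- the root of X
  set Y : ℝ := X ^ (1 / (4 * (n : ℝ))) with hY
  have hY1 : 1 ≤ Y := Real.one_le_rpow hX1 (by positivity)
  have hYn : Y ^ (4 * n) = X := by
    rw [hY, ← Real.rpow_natCast, ← Real.rpow_mul hX0.le]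
    push_cast
    rw [one_div_mul_cancel (by positivity), Real.rpow_one]
  have hXY : X ^ (1 + 1 / (4 * (n : ℝ))) = Y ^ (4 * n + 1) := by
    rw [Real.rpow_add hX0, Real.rpow_one, pow_succ, hYn]
  have hYb : bb n Q ^ (15 * n) ≤ Y := by
    have h1 : (bb n Q ^ (15 * n)) ^ (4 * n) ≤ Y ^ (4 * n) := by
      rw [hYn, ← pow_mul]
      refine le_trans (le_of_eq ?_) hX
      congr 1
      ring
    exact le_of_pow_le_pow_left₀ (by omega) (by linarith) h1
  rw [hXY] at hx2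
  set X' : ℝ := Y ^ (4 * n + 1) with hX'
  set E : ℝ := bb n Q ^ (4 * n + 4) / X ^ s with hE
  have hEb : ∀ i, |((P i).2 : ℝ) - (θ * (P i).1 + cb br 1 + zbs s br (P i).1)| ≤ E := by
    intro i
    refine (hNb i).trans ?_
    exact div_le_div_of_nonneg_left (by positivity) (by positivity) (pow_le_pow_left₀ hX0.le (hxX i) _)
  have hE4 : E ≤ 1 / 4 := by
    rw [hE, div_le_iff₀ (by positivity)]
    have s1 : X ≤ X ^ s := by
      calc X = X ^ 1 := (pow_one X).symm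
        _ ≤ X ^ s := pow_le_pow_right₀ hX1 (by omega)
    have s2 : bb n Q ^ (4 * n + 5) ≤ X := (pow_le_pow_right₀ hb1 (by nlinarith)).trans hX
    have s3 : 1000 * bb n Q ^ (4 * n + 4) ≤ bb n Q ^ (4 * n + 5) := by
      rw [pow_succ (bb n Q) (4 * n + 4), mul_comm]
      exact mul_le_mul_of_nonneg_left hb1000 (by positivity)
    have s4 : 0 < bb n Q ^ (4 * n + 4) := by positivity
    linarith
  -- the first coordinates are different
  have hxne : ∀ i j, i ≠ j → (P i).1 ≠ (P j).1 := by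
    intro i j hne hx
    apply hne
    apply hinj
    refine Prod.ext hx ?_
    have h3 := abs_le.1 (hEb i)
    have h4 := abs_le.1 (hEb j)
    rw [← hx] at h4
    have h5 : |((P i).2 : ℝ) - (P j).2| < 1 := by
      rw [abs_lt]
      constructor <;> linarith
    have h6 : |(P i).2 - (P j).2| < 1 := by exact_mod_cast h5
    rw [Int.abs_lt_one_iff] at h6
    linarith
  obtain ⟨i, j, k, hij, hjk, hc⟩ := sort3 P hxne hcol
  have hijR : ((P i).1 : ℝ) < (P j).1 := by exact_mod_cast hij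
  have hjkR : ((P j).1 : ℝ) < (P k).1 := by exact_mod_cast hjk
  have hcR : (((P j).1 : ℝ) - (P i).1) * ((P k).2 - (P j).2) = ((P k).1 - (P j).1) * ((P j).2 - (P i).2) := by
    exact_mod_cast hc
  -- the bounds for the coefficients
  have hlow : 1 ≤ |cb br r| * bb n Q ^ (2 * r * n) := h2 n Q f θ O G hG br r (by omega) (by omega) hr.ne
  have hup : ∀ k, 2 ≤ k → k ≤ s + 2 - 2 → |cb br k| ≤ bb n Q ^ (4 * n) := by
    intro k hk hkn
    exact (h1 n Q f θ O G hG br k (by omega)).trans (pow_le_pow_right₀ hb1 (by omega))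
  have hcX : 2 * (((s + 2 : ℕ) : ℝ) ^ 3 * bb n Q ^ (4 * n)) ≤ |cb br r| * X := by
    have s1 : ((s + 2 : ℕ) : ℝ) ≤ bb n Q := by
      have t1 := n_add_one_leR hn hQ
      have t2 : (Q : ℝ) ^ 1 ≤ bb n Q := Qpow_le_bb hn hQ (by nlinarith)
      have t3 : ((s + 2 : ℕ) : ℝ) ≤ (n : ℝ) + 1 := by exact_mod_cast (by omega : s + 2 ≤ n + 1)
      rw [pow_one] at t2
      linarith
    have s2 : ((s + 2 : ℕ) : ℝ) ^ 3 ≤ bb n Q ^ 3 := pow_le_pow_left₀ (Nat.cast_nonneg _) s1 3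
    have s3 : 2 * (((s + 2 : ℕ) : ℝ) ^ 3 * bb n Q ^ (4 * n)) ≤ bb n Q ^ (4 * n + 4) := by
      calc 2 * (((s + 2 : ℕ) : ℝ) ^ 3 * bb n Q ^ (4 * n)) ≤ bb n Q * (bb n Q ^ 3 * bb n Q ^ (4 * n)) := by
            refine mul_le_mul (by linarith) ?_ (by positivity) hb0.le
            exact mul_le_mul_of_nonneg_right s2 (by positivity)
        _ = _ := by rw [pow_add]; ring
    have s4 : bb n Q ^ (2 * r * n) * bb n Q ^ (4 * n + 4) ≤ X := by
      rw [← pow_add]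
      refine (pow_le_pow_right₀ hb1 ?_).trans hX
      have : r * n ≤ n * n := Nat.mul_le_mul_right _ (by omega)
      nlinarith
    calc 2 * (((s + 2 : ℕ) : ℝ) ^ 3 * bb n Q ^ (4 * n)) ≤ bb n Q ^ (4 * n + 4) := s3
      _ = 1 * bb n Q ^ (4 * n + 4) := (one_mul _).symm
      _ ≤ (|cb br r| * bb n Q ^ (2 * r * n)) * bb n Q ^ (4 * n + 4) := mul_le_mul_of_nonneg_right hlow (by positivity)
      _ = |cb br r| * (bb n Q ^ (2 * r * n) * bb n Q ^ (4 * n + 4)) := by ring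
      _ ≤ |cb br r| * X := mul_le_mul_of_nonneg_left s4 (abs_nonneg _)
  have key : (((P j).1 : ℝ) - (P i).1) * ((P k).1 - (P j).1) * |cb br r| ≤ 4 * E * X' ^ (r + 1) := by
    rcases hside with hs | hs
    · exact col_bound (n := s + 2) (c := cb br) (t := θ) (c0 := cb br 1) hr2 (by omega) hr.lo hup hX1 hcX (hs i) hijR hjkR
        ((le_abs_self _).trans (hx2 k)) (hEb i) (hEb j) (hEb k) hcR
    · have hz : ∀ x : ℝ, zbs s br x = ∑ k ∈ Icc 2 s, ((-1) ^ (k - 1) * cb br k) / (-x) ^ (k - 1) := by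
        intro x
        unfold zbs
        refine sum_congr rfl fun k _ => ?_
        rw [neg_pow x (k - 1), mul_div_mul_left _ _ (pow_ne_zero _ (by norm_num))]
      have habs : ∀ k, |(-1 : ℝ) ^ (k - 1) * cb br k| = |cb br k| := by
        intro k
        rw [abs_mul, abs_pow, abs_neg, abs_one, one_pow, one_mul]
      have hE' : ∀ i, |((P i).2 : ℝ) - (-θ * -((P i).1 : ℝ) + cb br 1 +
          ∑ k ∈ Icc 2 s, ((-1) ^ (k - 1) * cb br k) / (-((P i).1 : ℝ)) ^ (k - 1))| ≤ E := by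
        intro i
        rw [← hz, neg_mul_neg]
        exact hEb i
      have h := col_bound (n := s + 2) (c := fun k => (-1 : ℝ) ^ (k - 1) * cb br k) (B := bb n Q ^ (4 * n)) (X := X) (X' := X')
        (t := -θ) (c0 := cb br 1) (x1 := -((P k).1 : ℝ)) (x2 := -((P j).1 : ℝ)) (x3 := -((P i).1 : ℝ)) hr2 (by omega)
        (fun k h2k hkr => by simp only [hr.lo k h2k hkr, mul_zero]) (fun k h2k hkn => by rw [habs]; exact hup k h2k hkn)
        hX1 (by rw [habs]; exact hcX) (hs k) (by linarith) (by linarith) ((neg_le_abs _).trans (hx2 i)) (hE' k) (hE' j)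
        (hE' i) (by linear_combination hcR)
      simp only [habs] at h
      linarith
  -- the smallest gap
  have hgap : ∀ i j, i ≠ j → X ^ (r - 1) ≤ bb n Q ^ (4 * n + 6) * |((P i).1 : ℝ) - (P j).1| ^ (n - 1) := fun i j hne =>
    hng n s Q f θ O G h3 hsn hG hf br r hr X hX (P i) (P j) (hxne i j hne) (hxX i) (hxX j) (hNb i) (hNb j)
  have hjine : j ≠ i := by rintro rfl; exact lt_irrefl _ hij
  have hkjne : k ≠ j := by rintro rfl; exact lt_irrefl _ hjk
  have g1 := hgap j i hjine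
  have g2 := hgap k j hkjne
  rw [abs_of_pos (by linarith)] at g1 g2
  have d1 : (1 : ℝ) ≤ (P j).1 - (P i).1 := by
    have : (1 : ℤ) ≤ (P j).1 - (P i).1 := by omega
    exact_mod_cast this
  have d2 : (1 : ℝ) ≤ (P k).1 - (P j).1 := by
    have : (1 : ℤ) ≤ (P k).1 - (P j).1 := by omega
    exact_mod_cast this
  obtain ⟨D, hD1, hDV, hDg⟩ : ∃ D : ℝ, 1 ≤ D ∧ D ^ 2 ≤ (((P j).1 : ℝ) - (P i).1) * ((P k).1 - (P j).1) ∧
      X ^ (r - 1) ≤ bb n Q ^ (4 * n + 6) * D ^ (n - 1) := by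
    rcases le_total (((P j).1 : ℝ) - (P i).1) (((P k).1 : ℝ) - (P j).1) with h | h
    · exact ⟨_, d1, by rw [sq]; exact mul_le_mul_of_nonneg_left h (by linarith), g1⟩
    · exact ⟨_, d2, by rw [sq]; exact mul_le_mul_of_nonneg_right h (by linarith), g2⟩
  refine fin_num (C := |cb br r|) h3 hsn hr2 hrs hr.ok hb1000 hYb hD1 hlow ?_ (by rw [hYn]; exact hDg)
  rw [hYn]
  have s1 : D ^ 2 * |cb br r| ≤ 4 * E * X' ^ (r + 1) :=
    (mul_le_mul_of_nonneg_right hDV (abs_nonneg _)).trans key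
  calc D ^ 2 * |cb br r| * X ^ s ≤ (4 * E * X' ^ (r + 1)) * X ^ s :=
        mul_le_mul_of_nonneg_right s1 (by positivity)
    _ = 4 * bb n Q ^ (4 * n + 4) * X' ^ (r + 1) := by
        rw [hE]
        field_simp

end Pool.Agent.H88.TZ
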