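import Pool.Agent.H88.TZ.Def
import Pool.Agent.H88.TF.Exr

/-! # [H88 TZ NGS] Two points near a branch with contact `r`: exponent `n - 1`

As `H12/TG/Ngp.lean`, with the norm bound in place of `O.liouville`: `t = (y-y')/(x-x')`, `D = |x-x'| ≥ 1`; `(x-x')^n f(t)` is a nonzero integer,
so `1 ≤ D^n |f(t)| = D^n |f(t) - f(θ)| ≤ D^(n-1) |q| b`, `q = (y-y') - θ (x-x')`, `|q| ≤ b^(4n+5)/X^(r-1)`. -/

namespace Pool.Agent.H88.TZ

open Finset Polynomial Pool.Agent.H72.ES Pool.Agent.H88.TF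

private theorem zbs_bd {n s Q : ℕ} {f : ℤ[X]} {θ : ℝ} {O : Ord ℝ n Q f θ} {G : ℕ → ℕ → ℤ} (h3 : 3 ≤ s) (hsn : s + 1 ≤ n)
    (hG : Norml n Q f G) (br : Branch O G) (r : ℕ) (hr : Rcs s br r) (X : ℝ) (hX : 1 ≤ X) (x : ℝ) (hx : X ≤ |x|) :
    |zbs s br x| ≤ bb n Q ^ (4 * n) / X ^ (r - 1) := by
  obtain ⟨b, hbd⟩ : ∃ b : ℝ, b = bb n Q := ⟨_, rfl⟩
  have hn := hG.hn
  have hQ := hG.hQ
  have hb1 : 1 ≤ b := by rw [hbd]; exact one_le_bb hn hQ
  have hb0 : 0 < b := by linarith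
  have hX0 : 0 < X := by linarith
  have hnb : (n : ℝ) ≤ b := by
    have h2 := n_add_one_leR hn hQ
    have h3 : (Q : ℝ) ^ 1 ≤ b := by rw [hbd]; exact Qpow_le_bb hn hQ (by nlinarith)
    rw [pow_one] at h3
    linarith
  rw [← hbd]
  unfold zbs
  refine (abs_sum_le_sum_abs _ _).trans ?_
  have hterm : ∀ k ∈ Icc 2 s, |cb br k / x ^ (k - 1)| ≤ b ^ (4 * n - 4) / X ^ (r - 1) := by
    intro k hk
    rw [mem_Icc] at hk
    rcases Nat.lt_or_ge k r with h | h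
    · rw [hr.lo k hk.1 h, zero_div, abs_zero]
      positivity
    · rw [abs_div, abs_pow]
      have e1 : |cb br k| ≤ b ^ (4 * n - 4) := by
        rw [hbd]
        refine (cbl n Q f θ O G hG br k (by omega)).trans (pow_le_pow_right₀ (by rw [← hbd]; exact hb1) (by omega))
      have e2 : X ^ (r - 1) ≤ |x| ^ (k - 1) :=
        (pow_le_pow_right₀ hX (by omega)).trans (pow_le_pow_left₀ hX0.le hx _)
      exact div_le_div₀ (by positivity) e1 (by positivity) e2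
  refine (sum_le_card_nsmul _ _ _ hterm).trans ?_
  rw [nsmul_eq_mul, Nat.card_Icc]
  have h2 : ((s + 1 - 2 : ℕ) : ℝ) ≤ b := by
    have : ((s + 1 - 2 : ℕ) : ℝ) ≤ (n : ℝ) := by exact_mod_cast (by omega : s + 1 - 2 ≤ n)
    linarith
  calc ((s + 1 - 2 : ℕ) : ℝ) * (b ^ (4 * n - 4) / X ^ (r - 1)) ≤ b * (b ^ (4 * n - 4) / X ^ (r - 1)) := by gcongr
    _ = b ^ (4 * n - 3) / X ^ (r - 1) := by
        rw [mul_div_assoc', ← pow_succ']
        congr 2
        omega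
    _ ≤ b ^ (4 * n) / X ^ (r - 1) := by
        have : b ^ (4 * n - 3) ≤ b ^ (4 * n) := pow_le_pow_right₀ hb1 (by omega)
        gcongr

/-- the norm of `v - α u` is a nonzero integer -/
private theorem norm_low {n : ℕ} {f : ℤ[X]} (hn : 2 ≤ n) (hm : f.Monic) (hd : f.natDegree = n) (hf : Irreducible f) (u v : ℤ) (hu : u ≠ 0) :
    1 ≤ |(u : ℝ)| ^ n * |aeval ((v : ℝ) / u) f| := by
  have huR : (u : ℝ) ≠ 0 := by exact_mod_cast hu
  obtain ⟨Z, hZ⟩ : ∃ Z : ℤ, Z = ∑ i ∈ range (n + 1), f.coeff i * v ^ i * u ^ (n - i) := ⟨_, rfl⟩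
  have hZR : (Z : ℝ) = (u : ℝ) ^ n * aeval ((v : ℝ) / u) f := by
    rw [hZ, aeval_eq_sum_range, hd, mul_sum]
    push_cast
    refine sum_congr rfl fun i hi => ?_
    have hi' : i ≤ n := by
      have := mem_range.1 hi
      omega
    obtain ⟨k, rfl⟩ : ∃ k, n = i + k := ⟨n - i, by omega⟩
    rw [Nat.add_sub_cancel_left, zsmul_eq_mul, div_pow, pow_add]
    field_simp
  have hne : Z ≠ 0 := by
    intro h0
    have h1 : aeval ((v : ℝ) / u) f = 0 := by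
      rw [h0, Int.cast_zero] at hZR
      rcases mul_eq_zero.1 hZR.symm with h | h
      · exact absurd h (pow_ne_zero _ huR)
      · exact h
    have h2 : aeval ((v : ℚ) / u) f = 0 := by
      have h3 : (algebraMap ℚ ℝ) (aeval ((v : ℚ) / u) f) = 0 := by
        rw [← aeval_algebraMap_apply, ← h1]
        congr 1
        simp
      exact (map_eq_zero _).1 h3
    have h4 : Irreducible (f.map (Int.castRingHom ℚ)) :=
      (IsPrimitive.Int.irreducible_iff_irreducible_map_cast hm.isPrimitive).1 hf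
    have h5 : (f.map (Int.castRingHom ℚ)).IsRoot ((v : ℚ) / u) := by
      rw [IsRoot.def, eval_map, ← algebraMap_int_eq, ← aeval_def]
      exact h2
    have h6 := degree_eq_one_of_irreducible_of_root h4 h5
    have h7 : (f.map (Int.castRingHom ℚ)).natDegree = 1 := natDegree_eq_of_degree_eq_some h6
    rw [hm.natDegree_map, hd] at h7
    omega
  have h8 : (1 : ℝ) ≤ |(Z : ℝ)| := by exact_mod_cast Int.one_le_abs hne
  rw [hZR, abs_mul, abs_pow] at h8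
  exact h8

/-- `|f(t)| ≤ b |t - θ|` near a zero `θ` -/
private theorem lip {n Q : ℕ} {f : ℤ[X]} {G : ℕ → ℕ → ℤ} (hG : Norml n Q f G) {θ t : ℝ} (hθ0 : aeval θ f = 0)
    (hθ : |θ| ≤ (Q : ℝ) ^ 2) (ht : |t - θ| ≤ 1) : |aeval t f| ≤ bb n Q * |t - θ| := by
  have hn := hG.hn
  have hQ := hG.hQ
  obtain ⟨hm, hd, hc⟩ := hG.lead_props
  have hQ1 := one_le_QR hn hQ
  have hQ16 := sixteen_leR hn hQ
  have hnQ := n_add_one_leR hn hQ
  have htQ : |t| ≤ (Q : ℝ) ^ 3 := by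
    have h1 : |t| ≤ |t - θ| + |θ| := by
      have := abs_add_le (t - θ) θ
      rwa [sub_add_cancel] at this
    have h2 : (1 : ℝ) ≤ (Q : ℝ) ^ 2 := one_le_pow₀ hQ1
    have h3 : (Q : ℝ) ^ 3 = Q * (Q : ℝ) ^ 2 := by ring
    nlinarith
  have hθQ : |θ| ≤ (Q : ℝ) ^ 3 := hθ.trans (pow_le_pow_right₀ hQ1 (by norm_num))
  have e1 : aeval t f = ∑ i ∈ range (n + 1), (f.coeff i : ℝ) * (t ^ i - θ ^ i) := by
    have h1 : aeval t f = aeval t f - aeval θ f := by rw [hθ0, sub_zero]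
    rw [h1, aeval_eq_sum_range, aeval_eq_sum_range, hd, ← sum_sub_distrib]
    refine sum_congr rfl fun i _ => ?_
    rw [zsmul_eq_mul, zsmul_eq_mul]
    ring
  have e2 : ∀ i ∈ range (n + 1), |(f.coeff i : ℝ) * (t ^ i - θ ^ i)| ≤ (Q : ℝ) * (Q * (Q : ℝ) ^ (3 * n)) * |t - θ| := by
    intro i hi
    have hi' : i ≤ n := by
      have := mem_range.1 hi
      omega
    rw [abs_mul]
    have h1 : |(f.coeff i : ℝ)| ≤ Q := by exact_mod_cast hc i
    have h2 := abs_pow_sub_pow_le t θ i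
    have h3 : max |t| |θ| ^ (i - 1) ≤ (Q : ℝ) ^ (3 * n) := by
      calc max |t| |θ| ^ (i - 1) ≤ ((Q : ℝ) ^ 3) ^ (i - 1) :=
            pow_le_pow_left₀ (le_trans (abs_nonneg _) (le_max_left _ _)) (max_le htQ hθQ) _
        _ = (Q : ℝ) ^ (3 * (i - 1)) := by rw [← pow_mul]
        _ ≤ (Q : ℝ) ^ (3 * n) := pow_le_pow_right₀ hQ1 (by omega)
    have h4 : (i : ℝ) ≤ Q := by
      have : (i : ℝ) ≤ (n : ℝ) := by exact_mod_cast hi'
      linarith
    calc |(f.coeff i : ℝ)| * |t ^ i - θ ^ i| ≤ Q * (|t - θ| * i * max |t| |θ| ^ (i - 1)) :=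
          mul_le_mul h1 h2 (abs_nonneg _) (by linarith)
      _ ≤ Q * (|t - θ| * Q * (Q : ℝ) ^ (3 * n)) := by gcongr
      _ = _ := by ring
  rw [e1]
  refine (abs_sum_le_sum_abs _ _).trans ((sum_le_card_nsmul _ _ _ e2).trans ?_)
  rw [nsmul_eq_mul, card_range]
  have h5 : ((n + 1 : ℕ) : ℝ) ≤ Q := by push_cast; linarith
  calc ((n + 1 : ℕ) : ℝ) * ((Q : ℝ) * (Q * (Q : ℝ) ^ (3 * n)) * |t - θ|)
      ≤ Q * ((Q : ℝ) * (Q * (Q : ℝ) ^ (3 * n)) * |t - θ|) := mul_le_mul_of_nonneg_right h5 (by positivity)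
    _ = (Q : ℝ) ^ (3 * n + 3) * |t - θ| := by ring
    _ ≤ bb n Q * |t - θ| := mul_le_mul_of_nonneg_right (Qpow_le_bb hn hQ (by nlinarith)) (abs_nonneg _)

theorem ngs : NgsS := by
  intro n s Q f θ O G h3 hsn hG hf br r hr X hX P P' hne hx hx' hP hP'
  have hn := hG.hn
  have hQ := hG.hQ
  obtain ⟨b, hbdef⟩ : ∃ b : ℝ, b = bb n Q := ⟨_, rfl⟩
  rw [← hbdef] at hX ⊢
  have hb1 : 1 ≤ b := by rw [hbdef]; exact one_le_bb hn hQ
  have hb0 : 0 < b := by linarith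
  have hb1000 : 1000 ≤ b := by rw [hbdef]; exact thousand_le_bb hn hQ
  have hQ1 := one_le_QR hn hQ
  have hbX : b ^ (4 * n + 5) ≤ X := (pow_le_pow_right₀ hb1 (by nlinarith)).trans hX
  have hX1 : 1 ≤ X := (one_le_pow₀ hb1).trans hbX
  have hX0 : 0 < X := by linarith
  obtain ⟨x, y⟩ := P
  obtain ⟨x', y'⟩ := P'
  simp only at hne hx hx' ⊢
  have hr2 := hr.r2
  have hrs := hr.rs
  set q : ℝ := ((y : ℝ) - y') - θ * ((x : ℝ) - x') with hq
  obtain ⟨V, hV⟩ : ∃ V : ℝ, V = X ^ (r - 1) := ⟨_, rfl⟩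
  have hV0 : 0 < V := by rw [hV]; positivity
  have hXV : X ≤ V := by
    rw [hV]
    exact le_self_pow₀ hX1 (by omega)
  have one : ∀ u w : ℤ, X ≤ |(u : ℝ)| → Nbs s br (u, w) → |(w : ℝ) - θ * u - cb br 1| ≤ 2 * (b ^ (4 * n + 4) / V) := by
    intro u w hu hN
    unfold Nbs at hN
    simp only at hN
    have e1 := zbs_bd h3 hsn hG br r hr X hX1 u hu
    rw [← hbdef, ← hV] at e1
    rw [← hbdef] at hN
    have e2 : b ^ (4 * n) / V ≤ b ^ (4 * n + 4) / V := by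
      have : b ^ (4 * n) ≤ b ^ (4 * n + 4) := pow_le_pow_right₀ hb1 (by omega)
      gcongr
    have e3 : b ^ (4 * n + 4) / |(u : ℝ)| ^ s ≤ b ^ (4 * n + 4) / V := by
      have : V ≤ |(u : ℝ)| ^ s := by
        rw [hV]
        exact (pow_le_pow_right₀ hX1 (by omega)).trans (pow_le_pow_left₀ hX0.le hu _)
      gcongr
    have e4 : (w : ℝ) - θ * u - cb br 1 = ((w : ℝ) - (θ * u + cb br 1 + zbs s br u)) + zbs s br u := by ring
    rw [e4]
    refine (abs_add_le _ _).trans ?_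
    linarith
  have hqX : |q| ≤ b ^ (4 * n + 5) / V := by
    have e1 : q = ((y : ℝ) - θ * x - cb br 1) - ((y' : ℝ) - θ * x' - cb br 1) := by
      rw [hq]; ring
    have h6 : |q| ≤ 4 * (b ^ (4 * n + 4) / V) := by
      rw [e1]
      have t1 := abs_sub ((y : ℝ) - θ * x - cb br 1) ((y' : ℝ) - θ * x' - cb br 1)
      have t2 := one x y hx hP
      have t3 := one x' y' hx' hP'
      linarith
    refine h6.trans ?_
    rw [← mul_div_assoc]
    refine div_le_div_of_nonneg_right ?_ hV0.le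
    calc 4 * b ^ (4 * n + 4) ≤ b * b ^ (4 * n + 4) := mul_le_mul_of_nonneg_right (by linarith) (by positivity)
      _ = b ^ (4 * n + 5) := by ring
  have hq1 : |q| ≤ 1 := by
    refine hqX.trans ?_
    rw [div_le_one hV0]
    exact hbX.trans hXV
  obtain ⟨D, hD⟩ : ∃ D : ℝ, D = |(x : ℝ) - x'| := ⟨_, rfl⟩
  rw [← hD]
  have hD1 : 1 ≤ D := by
    have h1 : 1 ≤ |x - x'| := Int.one_le_abs (sub_ne_zero.2 hne)
    have h2 : ((|x - x'| : ℤ) : ℝ) = D := by rw [hD]; push_cast; rfl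
    rw [← h2]
    exact_mod_cast h1
  have hD0 : 0 < D := by linarith
  have hθ : |θ| ≤ (Q : ℝ) ^ 2 := by
    have h1 := O.φ_le O.α
    rw [O.φ_α, Real.norm_eq_abs] at h1
    exact h1.trans (O.ν_α.trans (nQ_le hn hQ))
  have hθ0 : aeval θ f = 0 := by
    have h1 := hom_eval₂ f (algebraMap ℤ O.R) O.φ O.α
    rw [show O.φ.comp (algebraMap ℤ O.R) = algebraMap ℤ ℝ from RingHom.ext_int _ _, ← aeval_def, ← aeval_def, O.root, map_zero,
      O.φ_α] at h1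
    exact h1.symm
  obtain ⟨hm, hd, hc⟩ := hG.lead_props
  have hu0 : x - x' ≠ 0 := sub_ne_zero.2 hne
  have huR : ((x - x' : ℤ) : ℝ) ≠ 0 := by exact_mod_cast hu0
  have hlow := norm_low (by omega : 2 ≤ n) hm hd hf (x - x') (y - y') hu0
  have hDu : |((x - x' : ℤ) : ℝ)| = D := by rw [hD]; push_cast; rfl
  have htq : ((y - y' : ℤ) : ℝ) / ((x - x' : ℤ) : ℝ) - θ = q / ((x - x' : ℤ) : ℝ) := by
    rw [hq]
    push_cast at huR ⊢
    field_simp
  have ht1 : |((y - y' : ℤ) : ℝ) / ((x - x' : ℤ) : ℝ) - θ| = |q| / D := by rw [htq, abs_div, hDu]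
  have hle : |aeval (((y - y' : ℤ) : ℝ) / ((x - x' : ℤ) : ℝ)) f| ≤ b * (|q| / D) := by
    rw [← ht1, hbdef]
    refine lip hG hθ0 hθ ?_
    rw [ht1]
    exact (div_le_one hD0).2 (hq1.trans hD1)
  rw [hDu] at hlow
  have h9 : 1 ≤ D ^ n * (b * ((b ^ (4 * n + 5) / V) / D)) := by
    refine hlow.trans (mul_le_mul_of_nonneg_left (hle.trans ?_) (by positivity))
    gcongr
  obtain ⟨k, rfl⟩ : ∃ k, n = k + 1 := ⟨n - 1, by omega⟩
  rw [Nat.add_sub_cancel]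
  have h10 : D ^ (k + 1) * (b * ((b ^ (4 * (k + 1) + 5) / V) / D)) = b ^ (4 * (k + 1) + 6) * D ^ k / V := by
    rw [pow_succ D k, pow_succ b (4 * (k + 1) + 5)]
    field_simp
  rw [h10, le_div_iff₀ hV0, one_mul, hV] at h9
  exact h9

end Pool.Agent.H88.TZ
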